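import Pool.Agent.ARC.Stmts

/-!
# Squad ARC, row TAI: tail of a Gaussian sum
-/

set_option autoImplicit false

namespace Pool.Agent.ARC.H13

open Real

theorem one_side (C : ℝ) (hC : 0 ≤ C) (e : ℕ → ℤ) (he : Function.Injective e) (g : ℤ → ℝ)
    (h0 : ∀ j, j ∉ Set.range e → g j = 0)
    (h1 : ∀ t : ℕ, g (e t) = C * Real.exp (-(2 * π * t))) :
    Summable g ∧ ∑' j, g j ≤ 2 * C := by
  have hr : Real.exp (-(2 * π)) ≤ 1 / 2 := by
    have h2 : Real.exp (-(2 * π)) ≤ Real.exp (-1) := by
      apply Real.exp_le_exp.2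
      have := Real.pi_gt_three
      linarith
    have h3 : (2 : ℝ) ≤ Real.exp 1 := by
      have := Real.add_one_le_exp (1 : ℝ)
      linarith
    have h4 : Real.exp (-1) ≤ 1 / 2 := by
      rw [Real.exp_neg, one_div]
      exact inv_anti₀ (by norm_num) h3
    exact h2.trans h4
  have hr0 : 0 < Real.exp (-(2 * π)) := Real.exp_pos _
  have hgeo : HasSum (fun t : ℕ => C * Real.exp (-(2 * π)) ^ t)
      (C * (1 - Real.exp (-(2 * π)))⁻¹) :=
    (hasSum_geometric_of_lt_one hr0.le (by linarith)).mul_left C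
  have hcomp : (g ∘ e) = fun t : ℕ => C * Real.exp (-(2 * π)) ^ t := by
    funext t
    rw [Function.comp_apply, h1, ← Real.exp_nat_mul]
    congr 2
    ring
  have hsum : HasSum g (C * (1 - Real.exp (-(2 * π)))⁻¹) := by
    rw [← he.hasSum_iff h0, hcomp]
    exact hgeo
  refine ⟨hsum.summable, ?_⟩
  rw [hsum.tsum_eq]
  have h5 : (1 - Real.exp (-(2 * π)))⁻¹ ≤ 2 := by
    rw [inv_le_comm₀ (by linarith) (by norm_num)]
    linarith
  nlinarith

theorem tai : TaiStmt := by
  intro lam x L hlam hL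
  have hπ := Real.pi_gt_three
  have hL1 : (1 : ℝ) ≤ (L : ℝ) := by exact_mod_cast hL
  set C : ℝ := Real.exp (-(2 * π * lam * (L : ℝ) ^ 2)) with hC
  have hC0 : 0 ≤ C := (Real.exp_pos _).le
  set j0 : ℤ := ⌈(L : ℝ) - x⌉ with hj0
  set j1 : ℤ := ⌊-(L : ℝ) - x⌋ with hj1
  -- the elementary inequality
  have key : ∀ (u t : ℝ), 0 ≤ t → (L : ℝ) + t ≤ |u| →
      Real.exp (-(2 * π * lam * u ^ 2)) ≤ C * Real.exp (-(2 * π * t)) := by
    intro u t ht hu
    rw [hC, ← Real.exp_add]
    apply Real.exp_le_exp.2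
    have h1 : ((L : ℝ) + t) ^ 2 ≤ u ^ 2 := by
      rw [← sq_abs u]
      exact pow_le_pow_left₀ (by linarith) hu 2
    have h2 : (L : ℝ) ^ 2 + t ≤ u ^ 2 := by nlinarith
    have h3 : lam * (L : ℝ) ^ 2 + t ≤ lam * u ^ 2 := by nlinarith
    nlinarith
  set g1 : ℤ → ℝ := fun j => if j0 ≤ j then C * Real.exp (-(2 * π * ((j : ℝ) - j0))) else 0
    with hg1
  set g2 : ℤ → ℝ := fun j => if j ≤ j1 then C * Real.exp (-(2 * π * ((j1 : ℝ) - j))) else 0
    with hg2
  have G1 : Summable g1 ∧ ∑' j, g1 j ≤ 2 * C := by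
    apply one_side C hC0 (fun t : ℕ => j0 + (t : ℤ))
    · intro a b hab
      simpa using hab
    · intro j hj
      rw [hg1]
      apply if_neg
      intro h
      apply hj
      exact ⟨(j - j0).toNat, by simp only []; omega⟩
    · intro t
      rw [hg1]
      simp only []
      rw [if_pos (by omega)]
      push_cast
      congr 2
      ring
  have G2 : Summable g2 ∧ ∑' j, g2 j ≤ 2 * C := by
    apply one_side C hC0 (fun t : ℕ => j1 - (t : ℤ))
    · intro a b hab
      simpa using hab
    · intro j hj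
      rw [hg2]
      apply if_neg
      intro h
      apply hj
      exact ⟨(j1 - j).toNat, by simp only []; omega⟩
    · intro t
      rw [hg2]
      simp only []
      rw [if_pos (by omega)]
      push_cast
      congr 2
      ring
  have hg1n : ∀ j, 0 ≤ g1 j := by
    intro j
    rw [hg1]
    simp only []
    split_ifs
    · positivity
    · exact le_refl _
  have hg2n : ∀ j, 0 ≤ g2 j := by
    intro j
    rw [hg2]
    simp only []
    split_ifs
    · positivity
    · exact le_refl _
  have hle : ∀ j : ℤ, (if (L : ℝ) ≤ |(j : ℝ) + x| then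
      Real.exp (-(2 * Real.pi * lam * ((j : ℝ) + x) ^ 2)) else 0) ≤ g1 j + g2 j := by
    intro j
    split_ifs with h
    · rcases le_abs.1 h with h1 | h1
      · have h2 : j0 ≤ j := by
          rw [hj0, Int.ceil_le]
          linarith
        have h3 : (L : ℝ) - x ≤ j0 := Int.le_ceil _
        have h2' : (j0 : ℝ) ≤ j := by exact_mod_cast h2
        have h4 := key ((j : ℝ) + x) ((j : ℝ) - j0) (by linarith)
          (le_trans (by linarith) (le_abs_self _))
        have h5 : g1 j = C * Real.exp (-(2 * π * ((j : ℝ) - j0))) := by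
          rw [hg1]
          exact if_pos h2
        rw [h5]
        linarith [hg2n j]
      · have h2 : j ≤ j1 := by
          rw [hj1, Int.le_floor]
          linarith
        have h3 : (j1 : ℝ) ≤ -(L : ℝ) - x := Int.floor_le _
        have h2' : (j : ℝ) ≤ j1 := by exact_mod_cast h2
        have h4 := key ((j : ℝ) + x) ((j1 : ℝ) - j) (by linarith)
          (le_trans (by linarith) (neg_le_abs _))
        have h5 : g2 j = C * Real.exp (-(2 * π * ((j1 : ℝ) - j))) := by
          rw [hg2]
          exact if_pos h2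
        rw [h5]
        linarith [hg1n j]
    · exact add_nonneg (hg1n j) (hg2n j)
  have hnn : ∀ j : ℤ, 0 ≤ (if (L : ℝ) ≤ |(j : ℝ) + x| then
      Real.exp (-(2 * Real.pi * lam * ((j : ℝ) + x) ^ 2)) else 0) := by
    intro j
    split_ifs
    · exact (Real.exp_pos _).le
    · exact le_refl _
  have hs := Summable.of_nonneg_of_le hnn hle (G1.1.add G2.1)
  refine ⟨hs, ?_⟩
  refine (hs.tsum_le_tsum hle (G1.1.add G2.1)).trans ?_
  rw [G1.1.tsum_add G2.1]
  linarith [G1.2, G2.2]

end Pool.Agent.ARC.H13
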